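import Pool.Agent.Y892.DP.Stm2

/-! Substitutions in pairs. -/

set_option autoImplicit false

noncomputable section

namespace Pool.Agent.Y784.DP

open Pool.Agent.Y892.DP Pool.Agent.Y63.KR

variable {G : Type} [Group G]

/-- the sum with integral exponents -/
def TT (N C : Subgroup G) (e : G) (Φ : G → G → ℂ) (i j : ℤ) : ℂ :=
  ∑ᶠ q : {q : G × G // (e ^ i)⁻¹ * q.1 ∈ N ∧ (e ^ j)⁻¹ * q.2 ∈ N ∧ q.1 ∈ C ∧ q.2 ∈ C},
    Φ q.1.1 q.1.2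

lemma pairSum_eq (N C : Subgroup G) (e : G) (Φ : G → G → ℂ) (i j : ℕ) :
    pairSum N C e Φ i j = TT N C e Φ i j := by
  unfold pairSum TT
  rw [zpow_natCast, zpow_natCast]

section

variable {N C : Subgroup G} {e : G} {Φ : G → G → ℂ}

lemma norm_zpow (he : conjSub e N = N) (k : ℤ) (x : G) : x ∈ N ↔ e ^ k * x * (e ^ k)⁻¹ ∈ N := by
  have h1 : e ∈ Subgroup.normalizer (N : Set G) := by
    rw [Subgroup.mem_normalizer_iff]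
    intro h
    have h2 : e * h * e⁻¹ ∈ conjSub e N ↔ h ∈ N := by
      rw [mem_conjSub]
      have : e⁻¹ * (e * h * e⁻¹) * e = h := by group
      rw [this]
    rw [← h2, he]
  have h3 := Subgroup.zpow_mem _ h1 k
  exact Subgroup.mem_normalizer_iff.1 h3 x

lemma mem_sup {i : ℤ} {x : G} (hx : (e ^ i)⁻¹ * x ∈ N) : x ∈ N ⊔ Subgroup.zpowers e := by
  have h1 : e ^ i ∈ N ⊔ Subgroup.zpowers e :=
    (le_sup_right : Subgroup.zpowers e ≤ _) (Subgroup.zpow_mem_zpowers e i)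
  have h2 : (e ^ i)⁻¹ * x ∈ N ⊔ Subgroup.zpowers e := (le_sup_left : N ≤ _) hx
  have h3 := Subgroup.mul_mem _ h1 h2
  rwa [mul_inv_cancel_left] at h3

lemma mul_coset (he : conjSub e N = N) {i j : ℤ} {x y : G} (hx : (e ^ i)⁻¹ * x ∈ N) :
    (e ^ j)⁻¹ * y ∈ N ↔ (e ^ (i + j))⁻¹ * (x * y) ∈ N := by
  have h1 : (e ^ (i + j))⁻¹ * (x * y) = ((e ^ j)⁻¹ * ((e ^ i)⁻¹ * x) * e ^ j) * ((e ^ j)⁻¹ * y) := by
    rw [zpow_add]
    group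
  have h2 : (e ^ j)⁻¹ * ((e ^ i)⁻¹ * x) * e ^ j ∈ N := by
    rw [norm_zpow he j]
    have : e ^ j * ((e ^ j)⁻¹ * ((e ^ i)⁻¹ * x) * e ^ j) * (e ^ j)⁻¹ = (e ^ i)⁻¹ * x := by group
    rwa [this]
  rw [h1]
  exact (Subgroup.mul_mem_cancel_left N h2).symm

lemma inv_coset (he : conjSub e N = N) {i : ℤ} {x : G} :
    (e ^ i)⁻¹ * x ∈ N ↔ (e ^ (-i))⁻¹ * x⁻¹ ∈ N := by
  rw [norm_zpow he i]
  have : e ^ i * ((e ^ i)⁻¹ * x) * (e ^ i)⁻¹ = ((e ^ (-i))⁻¹ * x⁻¹)⁻¹ := by group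
  rw [this]
  exact Subgroup.inv_mem_iff N

lemma TT_one (he : conjSub e N = N)
    (h1 : ∀ x y : G, x ∈ N ⊔ Subgroup.zpowers e → y ∈ N ⊔ Subgroup.zpowers e →
      Φ x (x * y) = Φ x y) (i j : ℤ) : TT N C e Φ i (i + j) = TT N C e Φ i j := by
  unfold TT
  set E : {q : G × G // (e ^ i)⁻¹ * q.1 ∈ N ∧ (e ^ j)⁻¹ * q.2 ∈ N ∧ q.1 ∈ C ∧ q.2 ∈ C} ≃
      {q : G × G // (e ^ i)⁻¹ * q.1 ∈ N ∧ (e ^ (i + j))⁻¹ * q.2 ∈ N ∧ q.1 ∈ C ∧ q.2 ∈ C} :=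
    Equiv.subtypeEquiv (Equiv.prodShear (Equiv.refl G) (fun x => Equiv.mulLeft x)) (by
      rintro ⟨x, y⟩
      show ((e ^ i)⁻¹ * x ∈ N ∧ (e ^ j)⁻¹ * y ∈ N ∧ x ∈ C ∧ y ∈ C) ↔
        ((e ^ i)⁻¹ * x ∈ N ∧ (e ^ (i + j))⁻¹ * (x * y) ∈ N ∧ x ∈ C ∧ x * y ∈ C)
      constructor
      · rintro ⟨a, b, c, d⟩
        exact ⟨a, (mul_coset he a).1 b, c, C.mul_mem c d⟩
      · rintro ⟨a, b, c, d⟩
        exact ⟨a, (mul_coset he a).2 b, c, (Subgroup.mul_mem_cancel_left C c).1 d⟩) with hE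
  rw [← finsum_comp_equiv E]
  refine finsum_congr fun q => ?_
  obtain ⟨⟨x, y⟩, a, b, c, d⟩ := q
  show Φ x (x * y) = Φ x y
  exact h1 x y (mem_sup a) (mem_sup b)

lemma TT_two (he : conjSub e N = N)
    (h2 : ∀ x y : G, x ∈ N ⊔ Subgroup.zpowers e → y ∈ N ⊔ Subgroup.zpowers e →
      Φ y x⁻¹ = Φ x y) (i j : ℤ) : TT N C e Φ j (-i) = TT N C e Φ i j := by
  unfold TT
  set E : {q : G × G // (e ^ i)⁻¹ * q.1 ∈ N ∧ (e ^ j)⁻¹ * q.2 ∈ N ∧ q.1 ∈ C ∧ q.2 ∈ C} ≃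
      {q : G × G // (e ^ j)⁻¹ * q.1 ∈ N ∧ (e ^ (-i))⁻¹ * q.2 ∈ N ∧ q.1 ∈ C ∧ q.2 ∈ C} :=
    Equiv.subtypeEquiv ((Equiv.prodComm G G).trans ((Equiv.refl G).prodCongr (Equiv.inv G))) (by
      rintro ⟨x, y⟩
      show ((e ^ i)⁻¹ * x ∈ N ∧ (e ^ j)⁻¹ * y ∈ N ∧ x ∈ C ∧ y ∈ C) ↔
        ((e ^ j)⁻¹ * y ∈ N ∧ (e ^ (-i))⁻¹ * x⁻¹ ∈ N ∧ y ∈ C ∧ x⁻¹ ∈ C)
      rw [← inv_coset he, Subgroup.inv_mem_iff]
      tauto) with hE
  rw [← finsum_comp_equiv E]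
  refine finsum_congr fun q => ?_
  obtain ⟨⟨x, y⟩, a, b, c, d⟩ := q
  show Φ y x⁻¹ = Φ x y
  exact h2 x y (mem_sup a) (mem_sup b)

lemma TT_mod {m : ℕ} (hm : e ^ m ∈ N) (i j : ℤ) : TT N C e Φ (i + m) j = TT N C e Φ i j := by
  have hm' : e ^ (m : ℤ) ∈ N := by rwa [zpow_natCast]
  have h : ∀ x : G, (e ^ (i + m))⁻¹ * x ∈ N ↔ (e ^ i)⁻¹ * x ∈ N := by
    intro x
    have h1 : (e ^ (i + m))⁻¹ * x = (e ^ (m : ℤ))⁻¹ * ((e ^ i)⁻¹ * x) := by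
      rw [zpow_add]
      group
    rw [h1]
    exact Subgroup.mul_mem_cancel_left N (N.inv_mem hm')
  unfold TT
  rw [← finsum_comp_equiv (Equiv.subtypeEquivRight (fun q : G × G => by
    rw [h q.1] : ∀ q : G × G, ((e ^ (i + m))⁻¹ * q.1 ∈ N ∧ (e ^ j)⁻¹ * q.2 ∈ N ∧ q.1 ∈ C ∧ q.2 ∈ C) ↔
      ((e ^ i)⁻¹ * q.1 ∈ N ∧ (e ^ j)⁻¹ * q.2 ∈ N ∧ q.1 ∈ C ∧ q.2 ∈ C)))]
  rfl

end

theorem sl : S_SL := by
  intro G _ _ N C e m Φ he hm0 hm h1 h2 i j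
  have heN : e ^ m ∈ N := (hm m).2 (dvd_refl m)
  have M1 := fun i j : ℤ => TT_one (C := C) he h1 i j
  have M2 := fun i j : ℤ => TT_two (C := C) he h2 i j
  have M1k : ∀ (k : ℕ) (i j : ℤ), TT N C e Φ i (j + k * i) = TT N C e Φ i j := by
    intro k i j
    induction k with
    | zero => simp
    | succ k ih =>
      have : j + ((k + 1 : ℕ) : ℤ) * i = i + (j + k * i) := by push_cast; ring
      rw [this, M1, ih]
  have Mn : ∀ i j : ℤ, TT N C e Φ (-i) (-j) = TT N C e Φ i j := by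
    intro i j
    rw [M2 j (-i), M2 i j]
  have main : ∀ i j : ℕ, TT N C e Φ i j = TT N C e Φ 0 (Nat.gcd i j : ℕ) ∧
      TT N C e Φ i (-j) = TT N C e Φ 0 (Nat.gcd i j : ℕ) := by
    intro i j
    induction i, j using Nat.gcd.induction with
    | H0 n =>
      rw [Nat.gcd_zero_left]
      refine ⟨rfl, ?_⟩
      have := Mn 0 n
      rw [neg_zero] at this
      exact_mod_cast this
    | H1 i j hi ih =>
      have hg : Nat.gcd i j = Nat.gcd (j % i) i := Nat.gcd_rec i j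
      have hj : (j : ℤ) = (j % i : ℕ) + (j / i : ℕ) * i := by
        have := Nat.mod_add_div j i
        have h3 : ((j % i + i * (j / i) : ℕ) : ℤ) = j := by rw [this]
        rw [← h3]
        push_cast
        ring
      rw [hg]
      constructor
      · rw [hj, M1k, ← M2, ih.2]
      · have h4 : TT N C e Φ i (-j) = TT N C e Φ i (-((j % i : ℕ) : ℤ)) := by
          rw [← M1k (j / i) i (-j)]
          congr 1
          rw [hj]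
          push_cast
          ring
        rw [h4, ← M2, Mn, ih.1]
  rw [pairSum_eq, pairSum_eq, (main i j).1]
  have h5 := TT_mod (C := C) (Φ := Φ) heN 0 (Nat.gcd i j : ℕ)
  rw [← h5, zero_add, (main m (Nat.gcd i j)).1, Nat.gcd_comm m]
  simp

end Pool.Agent.Y784.DP
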